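import Pool.Agent.W5h65.NC.Count

/-!
# Counting with ratios of cumulants of noncentral chi-square laws; the limit at `r → 0`
-/

set_option autoImplicit false

open Set Filter Topology

namespace Pool.Agent.W5h34.NR

open Pool.Agent.R352.E (cc zt clF Mt subset_clF clF_mono clF_le card_le mem_clF' of_pow zt_even)
open Pool.Agent.W5h65.GS (core qf qf_ne tt zt_pos zt_two cc_mem PK cum tail_bound coeff_tendsto hasSum_cg)
open Pool.Agent.W5h65.NC

/-- the same argument, half the order -/
def half : IN → IN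
  | none => none
  | some (j, r) => some ((j + 1) / 2 - 1, r)

lemma ord_half {i : IN} {n : ℕ} (hn : 0 < n) (h : ord i = 2 * n) : ord (half i) = n := by
  rcases i with _ | ⟨j, r⟩
  · simp only [ord] at h; omega
  · simp only [ord, half] at h ⊢; omega

lemma vld_half {i : IN} (h : vld i) : vld (half i) := by
  rcases i with _ | ⟨j, r⟩ <;> exact h

open Classical in
/-- the coordinates: a ratio of cumulants for the orders `2n`, `n ∈ O` -/
noncomputable def yy (O : Set ℕ) (i : IN) : ℝ :=
  if (∃ n ∈ O, ord i = 2 * n) ∧ cm (half i) ≠ 0 then qf (ord i / 2) * (cm i / cm (half i) ^ 2) else cm i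

theorem count_ratio (O E : Set ℕ) (hO : ∀ n ∈ O, Odd n ∧ 3 ≤ n) (hE : ∀ m ∈ E, Even m ∧ 2 ≤ m)
    (K : Subfield ℝ) (hK : K = clF (nm '' {i | vld i ∧ ord i ∉ O ∪ E}))
    (s : Finset (Option IN)) (hs : ∀ k ∈ s, Option.elim k (zt 2) (yy O) ∈ K)
    (hv : ∀ i, some i ∈ s → vld i ∧ ord i ∈ O ∪ E) :
    (s.card : ℕ∞) ≤ 1 + {n | n ∈ O ∧ tt n ∉ K}.encard := by
  classical
  set D : Set ℕ := {n | n ∈ O ∧ tt n ∉ K} with hD
  let s' : Finset IN := Finset.eraseNone s
  have hs' : ∀ i, i ∈ s' ↔ some i ∈ s := fun i => Finset.mem_eraseNone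
  let W2 : Finset IN := (s'.filter (fun i => ∃ n ∈ O, ord i = 2 * n)).image half
  let W : Finset IN := s' ∪ W2
  have hW2 : ∀ i ∈ W2, vld i ∧ ord i ∈ O := by
    intro i hi
    obtain ⟨j, hj, rfl⟩ := Finset.mem_image.1 hi
    obtain ⟨hj1, n, hn, hjn⟩ := Finset.mem_filter.1 hj
    refine ⟨vld_half (hv j ((hs' j).1 hj1)).1, ?_⟩
    rw [ord_half (by have := (hO n hn).2; omega) hjn]
    exact hn
  have hWv : ∀ i ∈ W, vld i ∧ ord i ∈ O ∪ E := by
    intro i hi
    rcases Finset.mem_union.1 hi with h | h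
    · exact hv i ((hs' i).1 h)
    · exact ⟨(hW2 i h).1, Or.inl (hW2 i h).2⟩
  let C : Set ℝ := if none ∈ s then ∅ else {zt 2}
  let P : Set ℝ := (tt '' D ∪ C) ∪ yy O '' (W \ s' : Finset IN)
  let T : Set ℝ := nm '' {i | vld i ∧ ord i ∉ O ∪ E} ∪ P
  have hKT : K ≤ clF T := by rw [hK]; exact clF_mono subset_union_left
  have hPT : P ⊆ clF T := fun z hz => subset_clF _ (Or.inr hz)
  have hz2 : zt 2 ∈ clF T := by
    by_cases h : none ∈ s
    · exact hKT (hs none h)
    · refine hPT (Or.inl (Or.inr ?_))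
      simp only [C, if_neg h, mem_singleton_iff]
  have hpi : Real.pi ∈ clF T := by
    refine of_pow (n := 2) (by norm_num) ?_
    have e : Real.pi ^ 2 = zt 2 * 6 := by rw [zt_two]; ring
    rw [e]
    refine (clF T).mul_mem hz2 ?_
    exact_mod_cast natCast_mem (clF T) 6
  have ht : ∀ n ∈ O, tt n ∈ clF T := by
    intro n hn
    by_cases h : tt n ∈ K
    · exact hKT h
    · exact hPT (Or.inl (Or.inl ⟨n, ⟨hn, h⟩, rfl⟩))
  have hzt : ∀ m ∈ O ∪ E, 2 ≤ m ∧ zt m ∈ clF T := by
    rintro m (hm | hm)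
    · obtain ⟨-, h3⟩ := hO m hm
      refine ⟨by omega, of_pow (n := 2) (by norm_num) ?_⟩
      have e : zt m ^ 2 = zt (2 * m) / tt m := by
        have h1 := (zt_pos (n := m) (by omega)).ne'
        have h2 := (zt_pos (n := 2 * m) (by omega)).ne'
        rw [tt]
        field_simp
      rw [e]
      exact (clF T).div_mem (zt_even hpi m (by omega)) (ht m hm)
    · obtain ⟨⟨k, hk⟩, h2⟩ := hE m hm
      refine ⟨h2, ?_⟩
      rw [hk, ← two_mul]
      exact zt_even hpi k (by omega)
  have hcc : ∀ m ∈ O ∪ E, cc (m - 1) ∈ clF T := fun m hm => cc_mem (hzt m hm).1 (hzt m hm).2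
  have hy : ∀ i ∈ W, yy O i ∈ clF T := by
    intro i hi
    by_cases h : i ∈ s'
    · exact hKT (hs (some i) ((hs' i).1 h))
    · exact hPT (Or.inr ⟨i, Finset.mem_coe.2 (Finset.mem_sdiff.2 ⟨hi, h⟩), rfl⟩)
  -- coordinates of order in O are cumulants
  have hyO : ∀ i, ord i ∈ O → yy O i = cm i := by
    intro i hi
    rw [yy, if_neg]
    rintro ⟨⟨n, hn, h⟩, -⟩
    have h1 := (hO _ hi).1
    rw [h] at h1
    exact (Nat.not_odd_iff_even.2 (even_two_mul n)) h1
  have hcm : ∀ i ∈ W, cm i ∈ clF T := by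
    intro i hi
    have h1 := hy i hi
    by_cases hc : (∃ n ∈ O, ord i = 2 * n) ∧ cm (half i) ≠ 0
    · rw [yy, if_pos hc] at h1
      obtain ⟨⟨n, hn, hin⟩, hc0⟩ := hc
      have hn3 := (hO n hn).2
      have hh : ord (half i) = n := ord_half (by omega) hin
      have hiW : half i ∈ W := by
        rcases Finset.mem_union.1 hi with h | h
        · exact Finset.mem_union_right _ (Finset.mem_image.2 ⟨i, Finset.mem_filter.2 ⟨h, n, hn, hin⟩, rfl⟩)
        · exfalso
          have h5 := (hO _ (hW2 i h).2).1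
          rw [hin] at h5
          exact (Nat.not_odd_iff_even.2 (even_two_mul n)) h5
      have h2 : cm (half i) ∈ clF T := by
        rw [← hyO _ (by rw [hh]; exact hn)]
        exact hy _ hiW
      have h3 : ord i / 2 = n := by omega
      rw [h3] at h1
      have e : cm i = qf n * (cm i / cm (half i) ^ 2) / qf n * cm (half i) ^ 2 := by
        have := qf_ne n
        field_simp
      rw [e]
      refine (clF T).mul_mem ((clF T).div_mem h1 ?_) ((clF T).pow_mem h2 _)
      rw [qf]
      exact (clF T).div_mem ((clF T).pow_mem (natCast_mem (clF T) _) _) (natCast_mem (clF T) _)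
    · rw [yy, if_neg hc] at h1
      exact h1
  have hnm : ∀ i ∈ W, nm i ∈ clF T := by
    intro i hi
    have hio := (hWv i hi).2
    have h0 : ord i ≠ 0 := by
      have := (hzt _ hio).1
      omega
    rw [nm_cm _ h0]
    exact (clF T).sub_mem (hcm i hi) (hcc _ hio)
  -- the rank inequality
  have hkey := core nm_alg_all {i | ord i.1 ∉ O ∪ E} (W.subtype vld) (fun i hi => by
      have := (hWv i.1 (Finset.mem_subtype.1 hi)).2
      simp only [mem_ofPred_eq, not_not]
      exact this) P (fun i hi => by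
      have e : (fun i : {i : IN // vld i} => nm i.1) '' {i | ord i.1 ∉ O ∪ E} = nm '' {i | vld i ∧ ord i ∉ O ∪ E} := by
        ext z
        constructor
        · rintro ⟨i, hi, rfl⟩
          exact ⟨i.1, ⟨i.2, hi⟩, rfl⟩
        · rintro ⟨i, ⟨hi1, hi2⟩, rfl⟩
          exact ⟨⟨i, hi1⟩, hi2, rfl⟩
      rw [e]
      exact hnm i.1 (Finset.mem_subtype.1 hi))
  have hWcard : (W.subtype vld).card = W.card := by
    rw [Finset.card_subtype, Finset.filter_true_of_mem]
    exact fun i hi => (hWv i hi).1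
  rw [hWcard] at hkey
  have hP : P.encard ≤ D.encard + C.encard + ((W \ s').card : ℕ∞) := by
    refine (encard_union_le _ _).trans (add_le_add ((encard_union_le _ _).trans (add_le_add (encard_image_le _ _) le_rfl)) ?_)
    rw [← encard_coe_eq_coe_finsetCard]
    exact encard_image_le _ _
  have hWs : W.card = (W \ s').card + s'.card :=
    (Finset.card_sdiff_add_card_eq_card (Finset.subset_union_left)).symm
  have h5 : (s'.card : ℕ∞) ≤ D.encard + C.encard := by
    have h6 := hkey.trans hP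
    rw [hWs, add_comm (D.encard + C.encard)] at h6
    push_cast at h6
    exact (ENat.add_le_add_iff_left (ENat.natCast_ne_top _)).1 h6
  by_cases h : none ∈ s
  · have hC : C.encard = 0 := by simp only [C, if_pos h, encard_empty]
    rw [hC, add_zero] at h5
    have h7 : s.card = s'.card + 1 := by
      have := Finset.card_eraseNone_eq_card_erase s
      rw [show s'.card = (s.erase none).card from this, Finset.card_erase_add_one h]
    rw [h7]
    push_cast
    rw [add_comm]
    exact add_le_add le_rfl h5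
  · have hC : C.encard = 1 := by simp only [C, if_neg h, encard_singleton]
    rw [hC] at h5
    have h7 : s.card = s'.card := by
      have := Finset.card_eraseNone_eq_card_erase s
      rw [show s'.card = (s.erase none).card from this, Finset.erase_eq_of_notMem h]
    rw [h7, add_comm]
    exact h5

/-! ## The limit at `r → 0` -/

lemma exp_tendsto0 (C : ℝ) : Tendsto (fun r : ℚ => Real.exp (C * |(r : ℝ)|) - 1) (𝓝 0) (𝓝 0) := by
  have h : Continuous (fun r : ℚ => Real.exp (C * |(r : ℝ)|) - 1) := by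
    have : Continuous (fun r : ℚ => (r : ℝ)) := Rat.continuous_coe_real
    fun_prop
  have h2 := h.tendsto 0
  simp only [Rat.cast_zero, abs_zero, mul_zero, Real.exp_zero, sub_self] at h2
  exact h2

lemma Zv_tendsto (n : ℕ) : Tendsto (fun r : ℚ => Zv n (r : ℝ)) (𝓝 0) (𝓝 (if n = 0 then 1 else 0)) := by
  rw [tendsto_iff_norm_sub_tendsto_zero]
  refine squeeze_zero (fun r => norm_nonneg _) (fun r => ?_) (exp_tendsto0 2)
  have h := tail_bound (a := fun k => ((Pool.Agent.W5h65.GS.es n k : ℚ) : ℝ) / k.factorial) (C := 2) (y := (r : ℝ))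
    (S := Zv n (r : ℝ)) (by norm_num) (hasSum_cg (fun k => by ring) (Zv_hasSum n (r : ℝ))) (fun k => ?_)
  · have e : (((Pool.Agent.W5h65.GS.es n 0 : ℚ) : ℝ) / (Nat.factorial 0 : ℝ)) = if n = 0 then 1 else 0 := by
      rw [Pool.Agent.W5h65.GS.es_zero_right]
      split_ifs <;> simp
    rw [e] at h
    rw [Real.norm_eq_abs]
    exact h
  · have h0 := es_le n k
    have h1 : |((Pool.Agent.W5h65.GS.es n k : ℚ) : ℝ)| ≤ 2 ^ k := by
      have : ((|Pool.Agent.W5h65.GS.es n k| : ℚ) : ℝ) ≤ ((2 ^ k : ℚ) : ℝ) := by exact_mod_cast h0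
      push_cast at this
      exact this
    rw [abs_div, Nat.abs_cast]
    exact div_le_div_of_nonneg_right h1 (by positivity)

theorem rk_tendsto (n : ℕ) : Tendsto (fun r : ℚ => rk (r : ℝ) n) (𝓝 0) (𝓝 0) := by
  have h := coeff_tendsto (l := 𝓝 (0 : ℚ)) (Q := fun r => PZ (r : ℝ))
    (K := fun r => PK (gN (r : ℝ)) - Pool.Agent.R352.E.PC) ?_ ?_ ?_ n
  · simp only [coeff_rk] at h
    have h2 := h.mul_const (n.factorial : ℝ)
    rw [zero_mul] at h2
    refine h2.congr fun r => ?_
    have : (n.factorial : ℝ) ≠ 0 := by positivity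
    field_simp
  · exact Eventually.of_forall fun r => dPZ (r : ℝ)
  · have h2 := Zv_tendsto 0
    simp only [if_true] at h2
    refine h2.congr fun r => ?_
    rw [PZ, PowerSeries.coeff_mk]
  · intro j
    have h2 := Zv_tendsto (j + 1)
    simp only [Nat.succ_ne_zero, if_false] at h2
    refine h2.congr fun r => ?_
    rw [PZ, PowerSeries.coeff_mk]

end Pool.Agent.W5h34.NR
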